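import Pool.Agent.ZES.StmtsZ

namespace Pool.Agent.ZES.H46

open scoped BigOperators InnerProductSpace
open Pool.Agent.THS

theorem bnd (hCnt : CntStmt) (hJac : JacStmt) (hSep : SepStmt) (hTnm : TnmStmt)
    (hPwd : PwdStmt) (hEsd : EsdStmt) : BndStmt := by
  intro g D m hm V _ _ _ L χ hL hmul hnbp hnbp2 hfin hfinD Γ Z W hZ hΓZ hWZ hAV hder z hz
  have hES : ES (TN L χ D) := hEsd V L χ hL D hmul hfinD hnbp
  obtain ⟨hdifm, hfinm, -⟩ := hPwd V (TN L χ D) hES m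
  obtain ⟨-, hpow, -, -⟩ := hTnm V L χ hL
  by_contra hcon
  push Not at hcon
  set r := Module.finrank ℂ ↥Wᗮ with hr
  set n := r * (m * D) + 2 with hn
  have hjac : ∀ i : Fin (n ^ g + 1), ∃ f : Fin r → V → ℂ,
      (∀ j, f j ∈ TN L χ D ^ m ⊓ Van (Γ : Set V)) ∧
      ∀ v ∈ Wᗮ, (∀ j, fderiv ℂ (f j) ((i : ℕ) • z) v = 0) → v = 0 := by
    intro i
    refine hJac V (TN L χ D ^ m ⊓ Van (Γ : Set V)) Wᗮ r hr (fun f hf => hdifm f hf.1)
      ((i : ℕ) • z) ?_
    intro v hv hv0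
    have h1 : v ∈ W := hder ((i : ℕ) • z) (hΓZ (Γ.nsmul_mem hz _)) v hv0
    exact (Submodule.disjoint_def.mp (Submodule.orthogonal_disjoint W)) v h1 hv
  choose f hf1 hf2 using hjac
  have hmain := hCnt V L χ hL W hAV (m * D) r (n ^ g + 1) hr
    (fun i => (i : ℕ) • z) f ?_ ?_ ?_ ?_ ?_ ?_
  · obtain ⟨F, hF⟩ := hmain
    have h1 := hSep V (TN L χ n) (n ^ g + 1) (hfin n (by omega)).1
      (fun i => (i : ℕ) • z) F hF
    have h2 := (hfin n (by omega)).2
    omega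
  · intro i k hik ω hω hmem
    have hik' : (i : ℕ) ≠ (k : ℕ) := fun h => hik (Fin.ext h)
    have hi := i.isLt
    have hk := k.isLt
    rcases lt_or_gt_of_ne hik' with h | h
    · refine hcon ((k : ℕ) - i) (by omega) (by omega) _ hmem ?_
      have h3 : ((k : ℕ) - (i : ℕ)) • z = (k : ℕ) • z - (i : ℕ) • z := by
        rw [eq_sub_iff_add_eq, ← add_smul]
        congr 1
        omega
      have h4 : ((k : ℕ) - (i : ℕ)) • z - ((k : ℕ) • z + ω - (i : ℕ) • z) = -ω := by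
        rw [h3]
        abel
      show ((k : ℕ) - (i : ℕ)) • z - ((k : ℕ) • z + ω - (i : ℕ) • z) ∈ L
      rw [h4]
      exact L.neg_mem hω
    · refine hcon ((i : ℕ) - k) (by omega) (by omega) _ (W.neg_mem hmem) ?_
      have h3 : ((i : ℕ) - (k : ℕ)) • z = (i : ℕ) • z - (k : ℕ) • z := by
        rw [eq_sub_iff_add_eq, ← add_smul]
        congr 1
        omega
      have h4 : ((i : ℕ) - (k : ℕ)) • z - -((k : ℕ) • z + ω - (i : ℕ) • z) = ω := by
        rw [h3]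
        abel
      show ((i : ℕ) - (k : ℕ)) • z - -((k : ℕ) • z + ω - (i : ℕ) • z) ∈ L
      rw [h4]
      exact hω
  · intro i j
    exact hpow D m (hf1 i j).1
  · intro i j k
    exact (hf1 i j).2 _ (Γ.nsmul_mem hz _)
  · intro i j w hw
    have h1 : (i : ℕ) • z + w ∈ Z := Z.add_mem (hΓZ (Γ.nsmul_mem hz _)) (hWZ w hw)
    have h2 : (i : ℕ) • z + w ∈ Zr (TN L χ D) (Γ : Set V) m := by
      rw [← hZ]
      exact h1
    exact h2 (f i j) (hf1 i j)
  · intro i v hv h0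
    exact hf2 i v hv h0
  · intro i
    exact hnbp2 _

end Pool.Agent.ZES.H46
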